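import Pool.Agent.H979.FR.Fin

/-!
# The frog model with death has a finite critical lifetime on amenable transitive graphs of
superlinear growth

All definitions used in the statement (`Transitive`, `Amenable`, `PolynomialGrowth`, `LinearGrowth`,
`path`, `visits`, `Visited`, `Survives`, `stepLaw`, `partLaw`, `law`, `tc`) are in
`Pool/Agent/H979/FR/Defs.lean`.
-/

set_option autoImplicit false

open MeasureTheory ProbabilityTheory
open scoped ENNReal NNReal

namespace Pool.Agent.Results.MP_e2f79e_pr.FiniteCriticalLifetime

open Pool.Agent.H979.FR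

/-- **Finite critical lifetime of the frog model with death (Q1, answer yes).** Let `G` be an
infinite, connected, locally finite, vertex-transitive, amenable graph.
1. (Q1) If `G` does not have polynomial growth, then `t_c(λ) < ∞` for every `λ > 0`.
2. More generally, this holds if `G` does not have linear growth. -/
theorem result (V : Type) [Infinite V] [MeasurableSpace V] [DiscreteMeasurableSpace V]
    (G : SimpleGraph V) [G.LocallyFinite] (hconn : G.Connected) (htrans : Transitive G)
    (hamen : Amenable G) (o : V) :
    (¬ PolynomialGrowth G o → ∀ lam : ℝ≥0, 0 < lam → tc G o lam < ⊤) ∧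
    (¬ LinearGrowth G o → ∀ lam : ℝ≥0, 0 < lam → tc G o lam < ⊤) := by
  have key : ¬ LinearGrowth G o → ∀ lam : ℝ≥0, 0 < lam → tc G o lam < ⊤ :=
    fun hL lam hlam => tc_lt_top V G hconn htrans hamen o hL lam hlam
  refine ⟨fun hP => key fun hL => hP ?_, key⟩
  obtain ⟨C, hC⟩ := hL
  exact ⟨C, 1, fun n hn => by rw [pow_one]; exact hC n hn⟩

end Pool.Agent.Results.MP_e2f79e_pr.FiniteCriticalLifetime
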